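import Pool.Agent.NH52.WC.Stm
import Pool.Agent.NH52.CI.Main
import Pool.Agent.NH52.CI.Tra
import Pool.Agent.NH52.CI.FatC
import Pool.Agent.NH97.MM.WRoot

set_option autoImplicit false
set_option linter.unusedSectionVars false
set_option linter.unusedVariables false

/-! # Weighted cones -/

namespace Pool.Agent.NH52.WC

open MvPolynomial Pool.Agent.W574.MO Pool.Agent.W574.SM Pool.Agent.W574.LM Pool.Agent.W574.HS
  Pool.Agent.W574.RO Pool.Agent.W574.CN Pool.Agent.Y229 Pool.Agent.NH52.CI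

variable {M : Type} [CommRing M] {L : Mˣ}

open Pool.Agent.NH52.CI.Tra in
/-- Local functional equations and translations. -/
theorem locEq_tr {ι : Type} [Fintype ι] {n : ℕ} (p : Fin n → ℂ) (H : MvPolynomial (Fin n) ℂ)
    (g : ι → MvPolynomial (Fin n) ℂ) (b : Polynomial ℂ) (hb : IsLocEq H g b) :
    IsLocEq (tr p H) (fun j => tr p (g j)) b := by
  obtain ⟨S, P, hS, h⟩ := hb
  obtain ⟨W, hW0, hW⟩ := conj' p
  refine ⟨S, fun c => (P c).mapRange W hW0, hS, fun s => ?_⟩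
  have h1 := congrArg (tr p) (h s)
  rw [map_mul, map_mul, tr_C, map_prod, map_sum] at h1
  have h2 : ∏ j, tr p (g j) ^ s j = ∏ j, tr p (g j ^ s j) :=
    Finset.prod_congr rfl fun j _ => (map_pow _ _ _).symm
  rw [h2, h1]
  refine Finset.sum_congr rfl fun c _ => ?_
  rw [← applyAt_tr p W hW0 hW, map_mul, tr_C, map_prod]
  have h3 : ∏ j, tr p (g j) ^ ((s j : ℤ) + c j).toNat = ∏ j, tr p (g j ^ ((s j : ℤ) + c j).toNat) :=
    Finset.prod_congr rfl fun j _ => (map_pow _ _ _).symm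
  rw [h3]

theorem eval_tr {n : ℕ} (p : Fin n → ℂ) (H : MvPolynomial (Fin n) ℂ) :
    eval 0 (Pool.Agent.NH52.CI.tr p H) = eval p H := by
  unfold Pool.Agent.NH52.CI.tr
  induction H using MvPolynomial.induction_on with
  | C a => rw [aeval_C, eval_C]; exact eval_C a
  | add u v hu hv => rw [map_add, map_add, map_add, hu, hv]
  | mul_X u j hu => rw [map_mul, map_mul, map_mul, hu, aeval_X, map_add, eval_X, eval_C, eval_X,
      Pi.zero_apply, zero_add]

theorem eval_aeval {n : ℕ} (g : Fin n → Polynomial ℂ) (H : MvPolynomial (Fin n) ℂ) (z : ℂ) :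
    (aeval g H).eval z = eval (fun k => (g k).eval z) H := by
  induction H using MvPolynomial.induction_on with
  | C a => rw [aeval_C, eval_C]; exact Polynomial.eval_C
  | add u v hu hv => rw [map_add, map_add, Polynomial.eval_add, hu, hv]
  | mul_X u j hu => rw [map_mul, map_mul, Polynomial.eval_mul, hu, aeval_X, eval_X]

/-- a point of the orbit near the origin at which `H` does not vanish -/
theorem exists_lam {n : ℕ} (w : Fin n → ℕ) (hw : ∀ i, 1 ≤ w i) (p : Fin n → ℂ)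
    (H : MvPolynomial (Fin n) ℂ) (hH : eval 0 H ≠ 0) :
    ∃ lam : ℂ, lam ≠ 0 ∧ eval (fun k => lam ^ w k * p k) H ≠ 0 := by
  set P : Polynomial ℂ := aeval (fun k => Polynomial.X ^ w k * Polynomial.C (p k)) H with hP
  have hev : ∀ z : ℂ, P.eval z = eval (fun k => z ^ w k * p k) H := by
    intro z
    rw [hP, eval_aeval]
    simp only [Polynomial.eval_mul, Polynomial.eval_pow, Polynomial.eval_X, Polynomial.eval_C]
  have hne : Polynomial.X * P ≠ 0 := by
    refine mul_ne_zero Polynomial.X_ne_zero fun h => hH ?_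
    have h1 := hev 0
    rw [h, Polynomial.eval_zero] at h1
    rw [h1]
    congr 2
    funext k
    rw [zero_pow (by have := hw k; omega), zero_mul]
    rfl
  obtain ⟨z, hz⟩ : ∃ z, (Polynomial.X * P).eval z ≠ 0 := by
    by_contra hc
    push Not at hc
    exact hne (Polynomial.funext fun z => by rw [hc z, Polynomial.eval_zero])
  rw [Polynomial.eval_mul, Polynomial.eval_X, hev] at hz
  exact ⟨z, left_ne_zero_of_mul hz, right_ne_zero_of_mul hz⟩

/-- **Points of the weighted projective space.** -/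
theorem sf_wpoint (hDROP : S_DROP) (hADD : S_ADD) (hUNI : S_UNI) (hSTR : S_STR) (hLIN : S_LIN)
    (hFOR : S_FOR) (hALG : S_ALG) (hSLI : S_SLI) (hORB : S_ORB) {n r : ℕ}
    (w : Fin (n + 1) → ℕ) (hw : ∀ i, 1 ≤ w i) (d : ℕ)
    (f : Fin r → MvPolynomial (Fin (n + 1)) ℂ) (hf : ∀ j, (f j).IsWeightedHomogeneous w d)
    (i : Fin (n + 1)) (p : Fin (n + 1) → ℂ) (hp : p i ≠ 0)
    (hne : ∃ j, slice i p (f j) ≠ 0) (α : ℂ) (h : SF (fun j => slice i p (f j)) 0 α) :
    SF f 0 α := by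
  classical
  have hne' : ∃ j, f j ≠ 0 := by
    obtain ⟨j, hj⟩ := hne
    exact ⟨j, fun h => hj (by rw [h, map_zero])⟩
  refine sf_of_local f 0 α (fun H b hb hH => ?_) (exists_fe f hne')
  obtain ⟨lam, hlam, hq⟩ := exists_lam w hw p H hH
  obtain ⟨φ, hφ, h0, hI⟩ := hORB w hw d f hf i p hp lam hlam
  have h1 := hSLI i (fun j => slice i p (f j)) α h
  have hne1 : ∃ j, rename i.succAbove (slice i p (f j)) ≠ 0 := by
    obtain ⟨j, hj⟩ := hne
    refine ⟨j, ?_⟩
    rw [Ne, map_eq_zero_iff _ (rename_injective _ Fin.succAbove_right_injective)]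
    exact hj
  have h2 := sf_iso hDROP hADD hUNI hSTR hLIN hFOR hALG
    (fun j => rename i.succAbove (slice i p (f j)))
    (fun j => tr (fun k => lam ^ w k * p k) (f j)) φ hφ h0 hI hne1 α h1
  refine h2.locEq (tr (fun k => lam ^ w k * p k) H) b (locEq_tr _ H f b hb) ?_
  rw [eval_tr]
  exact hq

/-- the root of the exceptional divisor -/
theorem sf_worigin {n r : ℕ} (w : Fin (n + 1) → ℕ) (hw : ∀ i, 1 ≤ w i) (d : ℕ) (hd : 0 < d)
    (f : Fin r → MvPolynomial (Fin (n + 1)) ℂ) (hf : ∀ j, (f j).IsWeightedHomogeneous w d)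
    (e : Fin (n + 1) → Fin r) (he : (Matrix.of fun s t => pderiv s (f (e t))).det ≠ 0) :
    KS f 0 d (∑ i, w i) := by
  classical
  refine sf_of_local f 0 _ (fun H b hb hH => ?_) (exists_fe f (det_exists f e he))
  have h1 : ∀ j, weightedHomogeneousComponent w d (f j) = f j := fun j =>
    weightedHomogeneousComponent_of_mem (hf j) |>.trans (if_pos rfl)
  refine Pool.Agent.NH97.MM.semi_root f w hw d hd (fun j k hk => ?_) b H hb hH e ?_
  · rw [weightedHomogeneousComponent_of_mem (hf j), if_neg (by omega)]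
  · simp only [h1]
    exact he

/-- **Weighted cones.** -/
theorem wcone_mem (hDROP : S_DROP) (hADD : S_ADD) (hUNI : S_UNI) (hSTR : S_STR) (hLIN : S_LIN)
    (hFOR : S_FOR) (hALG : S_ALG) (hTRA : S_TRA) (hDEN : S_DEN) (hMRT : S_MRT) (hSLI : S_SLI)
    (hORB : S_ORB) (hSER : S_SER) {n r : ℕ}
    (w : Fin (n + 1) → ℕ) (hw : ∀ i, 1 ≤ w i) (d : ℕ) (hd : 0 < d)
    (f : Fin r → MvPolynomial (Fin (n + 1)) ℂ) (hf : ∀ j, (f j).IsWeightedHomogeneous w d)
    (e : Fin (n + 1) → Fin r) (he : (Matrix.of fun s t => pderiv s (f (e t))).det ≠ 0)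
    (m : ℕ) (i : Fin m → Fin (n + 1)) (p : Fin m → Fin (n + 1) → ℂ) (hp : ∀ t, p t (i t) ≠ 0)
    (v : Fin m → M) (Z : Fin m → PowerSeries M)
    (hZ : ∀ t, CL L ⟨Fin n, Fin r, fun j => slice (i t) (p t) (f j)⟩ (Z t)) (c : M) :
    PowerSeries.C c * (wser L w d + ∑ t, PowerSeries.C (v t) * (Z t - 1) * mf L d (∑ i, w i)) ∈
      DenRing L (fun a k => ∀ b : Polynomial ℂ, IsLocalBI f b → b.eval (-(k : ℂ) / a) = 0) := by
  classical
  have hS := sf_worigin w hw d hd f hf e he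
  have hsum : 1 ≤ ∑ i, w i := (hw 0).trans
    (Finset.single_le_sum (f := w) (fun i _ => Nat.zero_le _) (Finset.mem_univ 0))
  have key : wser L w d + ∑ t, PowerSeries.C (v t) * (Z t - 1) * mf L d (∑ i, w i) ∈
      DenRing L (KS f 0) := by
    refine (DenRing L _).add_mem (hSER L w hw d hd _ hS) (Subring.sum_mem _ fun t _ => ?_)
    refine (DenRing L _).mul_mem ((DenRing L _).mul_mem (C_mem _)
      ((DenRing L _).sub_mem ?_ (DenRing L _).one_mem)) (mf_mem hsum fun _ => hS)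
    obtain ⟨-, hne, hm⟩ := cl_main hDROP hADD hUNI hSTR hLIN hFOR hALG hTRA hDEN hMRT _ _ (hZ t)
    refine denRing_mono (fun a k _ _ hK => ?_) (mem_of_tail hm)
    exact sf_wpoint hDROP hADD hUNI hSTR hLIN hFOR hALG hSLI hORB w hw d f hf (i t) (p t) (hp t)
      hne _ hK
  exact (DenRing L _).mul_mem (C_mem _) (denRing_mono (fun a n _ _ h b hb =>
    SF.localBI h b hb) key)

/-- the roots of the points at which the ideal is a power of the ideal of a smooth germ -/
theorem wfat_root (hDROP : S_DROP) (hADD : S_ADD) (hUNI : S_UNI) (hSTR : S_STR) (hLIN : S_LIN)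
    (hFOR : S_FOR) (hALG : S_ALG) (hFAT : S_FAT) (hSLI : S_SLI)
    (hORB : S_ORB) {n r : ℕ}
    (w : Fin (n + 1) → ℕ) (hw : ∀ i, 1 ≤ w i) (d : ℕ)
    (f : Fin r → MvPolynomial (Fin (n + 1)) ℂ) (hf : ∀ j, (f j).IsWeightedHomogeneous w d)
    (i : Fin (n + 1)) (p : Fin (n + 1) → ℂ) (hp : p i ≠ 0) (c k : ℕ) (hc : 1 ≤ c) (hk : 1 ≤ k)
    (hfat : IsFat (fun j => slice i p (f j)) c k) (b : Polynomial ℂ) (hb : IsLocalBI f b) :
    b.eval (-(c : ℂ) / k) = 0 := by
  classical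
  have hc' : c - 1 + 1 = c := by omega
  obtain ⟨-, r0, f0, φ, hφ, h0, hsp, hne, hSF⟩ := fat_cl (L := (1 : ℤˣ)) hFAT
    (fun j => slice i p (f j)) (c - 1) k hk (by rw [hc']; exact hfat)
  rw [hc'] at hSF
  have h1 := sf_iso hDROP hADD hUNI hSTR hLIN hFOR hALG f0 _ φ hφ h0 hsp hne _ hSF
  exact (sf_wpoint hDROP hADD hUNI hSTR hLIN hFOR hALG hSLI hORB w hw d f hf i p hp
    (ne_of_iso f0 _ φ h0 hsp hne) _ h1).localBI b hb

theorem fat_mem (hFAT : S_FAT) {n r : ℕ} (g : Fin r → MvPolynomial (Fin n) ℂ) (c k : ℕ)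
    (hc : 1 ≤ c) (hk : 1 ≤ k) (hfat : IsFat g c k) :
    CL L ⟨Fin n, Fin r, g⟩
      (PowerSeries.C (∑ i ∈ Finset.range c, (L : M) ^ i) * mf L k c) := by
  have hc' : c - 1 + 1 = c := by omega
  have h1 := (fat_cl (L := L) hFAT g (c - 1) k hk (by rw [hc']; exact hfat)).1
  rw [hc'] at h1
  exact h1

end Pool.Agent.NH52.WC
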