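import Pool.Agent.NH52.WC.Stm

set_option autoImplicit false

/-! # WC-2: formal coordinates along an orbit -/

namespace Pool.Agent.NH52.WC

open MvPolynomial Pool.Agent.NH52.CI

open Pool.Agent.Y229.GL (IsCoord)

namespace orbW

theorem aeval_wh {σ S : Type} [CommRing S] [Algebra ℂ S] (w : σ → ℕ) (a : σ → S) (r : S)
    (q : MvPolynomial σ ℂ) (d : ℕ) (hq : q.IsWeightedHomogeneous w d) :
    MvPolynomial.aeval (fun i => r ^ w i * a i) q = r ^ d * MvPolynomial.aeval a q := by
  rw [MvPolynomial.aeval_def, MvPolynomial.aeval_def, MvPolynomial.eval₂_eq,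
    MvPolynomial.eval₂_eq, Finset.mul_sum]
  refine Finset.sum_congr rfl fun m hm => ?_
  have h1 : Finsupp.weight w m = d := hq (MvPolynomial.mem_support_iff.1 hm)
  have h2 : ∏ i ∈ m.support, (r ^ w i * a i) ^ m i = r ^ d * ∏ i ∈ m.support, a i ^ m i := by
    simp only [mul_pow, Finset.prod_mul_distrib, ← pow_mul]
    rw [Finset.prod_pow_eq_pow_sum, ← h1, Finsupp.weight_apply, Finsupp.sum]
    congr 2
    refine Finset.sum_congr rfl fun i _ => ?_
    rw [smul_eq_mul, mul_comm]
  rw [h2]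
  ring

variable {n : ℕ}

/-- the coordinates of the points of the slice -/
noncomputable def yy (i : Fin (n + 1)) (p : Fin (n + 1) → ℂ) (k : Fin (n + 1)) :
    MvPowerSeries (Fin (n + 1)) ℂ :=
  (if k = i then 0 else MvPowerSeries.X k) + MvPowerSeries.C (p k)

/-- the parameter of the orbit -/
noncomputable def uu (i : Fin (n + 1)) (lam : ℂ) : MvPowerSeries (Fin (n + 1)) ℂ :=
  MvPowerSeries.C lam * (1 + MvPowerSeries.X i)

/-- the coordinates -/
noncomputable def ph (w : Fin (n + 1) → ℕ) (i : Fin (n + 1)) (p : Fin (n + 1) → ℂ) (lam : ℂ)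
    (k : Fin (n + 1)) : MvPowerSeries (Fin (n + 1)) ℂ :=
  uu i lam ^ w k * yy i p k - MvPowerSeries.C (lam ^ w k * p k)

lemma cc_uu (i : Fin (n + 1)) (lam : ℂ) : MvPowerSeries.constantCoeff (uu i lam) = lam := by
  unfold uu
  rw [map_mul, map_add, MvPowerSeries.constantCoeff_C, map_one, MvPowerSeries.constantCoeff_X,
    add_zero, mul_one]

lemma cc_yy (i : Fin (n + 1)) (p : Fin (n + 1) → ℂ) (k : Fin (n + 1)) :
    MvPowerSeries.constantCoeff (yy i p k) = p k := by
  unfold yy
  rw [map_add, MvPowerSeries.constantCoeff_C]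
  split_ifs
  · rw [map_zero, zero_add]
  · rw [MvPowerSeries.constantCoeff_X, zero_add]

lemma cc_ph (w : Fin (n + 1) → ℕ) (i : Fin (n + 1)) (p : Fin (n + 1) → ℂ) (lam : ℂ)
    (k : Fin (n + 1)) : MvPowerSeries.constantCoeff (ph w i p lam k) = 0 := by
  unfold ph
  rw [map_sub, map_mul, map_pow, cc_uu, cc_yy, MvPowerSeries.constantCoeff_C, sub_self]

lemma coe_slice (i : Fin (n + 1)) (p : Fin (n + 1) → ℂ) (f : MvPolynomial (Fin (n + 1)) ℂ) :
    ((rename i.succAbove (slice i p f) : MvPolynomial (Fin (n + 1)) ℂ) :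
      MvPowerSeries (Fin (n + 1)) ℂ) = aeval (yy i p) f := by
  induction f using MvPolynomial.induction_on with
  | C a =>
    rw [← algebraMap_eq, AlgHom.commutes, AlgHom.commutes, AlgHom.commutes, algebraMap_eq,
      MvPolynomial.coe_C]
    rfl
  | add f g hf hg => rw [map_add, map_add, map_add, MvPolynomial.coe_add, hf, hg]
  | mul_X f k hf =>
    rw [map_mul, map_mul, map_mul, MvPolynomial.coe_mul, hf, aeval_X]
    congr 1
    unfold slice yy
    rw [aeval_X]
    induction k using Fin.succAboveCases i with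
    | x => 
      rw [Fin.insertNth_apply_same, if_pos rfl, zero_add, rename_C, MvPolynomial.coe_C]
    | p k =>
      rw [Fin.insertNth_apply_succAbove, if_neg (Fin.succAbove_ne i k), map_add, rename_X, rename_C,
        MvPolynomial.coe_add, MvPolynomial.coe_X, MvPolynomial.coe_C]

lemma coe_tr (w : Fin (n + 1) → ℕ) (i : Fin (n + 1)) (p : Fin (n + 1) → ℂ) (lam : ℂ) (d : ℕ)
    (f : MvPolynomial (Fin (n + 1)) ℂ) (hf : f.IsWeightedHomogeneous w d) :
    MvPowerSeries.subst (ph w i p lam)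
      ((tr (fun k => lam ^ w k * p k) f : MvPolynomial (Fin (n + 1)) ℂ) :
        MvPowerSeries (Fin (n + 1)) ℂ) = uu i lam ^ d * aeval (yy i p) f := by
  have hs : MvPowerSeries.HasSubst (ph w i p lam) :=
    MvPowerSeries.hasSubst_of_constantCoeff_zero (cc_ph w i p lam)
  rw [MvPowerSeries.subst_coe, ← aeval_wh w _ _ f d hf]
  unfold tr
  rw [MvPolynomial.comp_aeval_apply]
  congr 2
  funext k
  rw [map_add, aeval_X, ← algebraMap_eq, AlgHom.commutes]
  unfold ph
  exact sub_add_cancel _ _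

lemma coeff_one (j : Fin (n + 1)) (g : MvPowerSeries (Fin (n + 1)) ℂ) :
    MvPowerSeries.coeff (Finsupp.single j 1) g =
      MvPowerSeries.constantCoeff (MvPowerSeries.pderiv ℂ j g) := by
  rw [← MvPowerSeries.coeff_zero_eq_constantCoeff_apply, MvPowerSeries.coeff_pderiv]
  simp

lemma pd_X (j k : Fin (n + 1)) :
    MvPowerSeries.constantCoeff (MvPowerSeries.pderiv ℂ j
      (MvPowerSeries.X k : MvPowerSeries (Fin (n + 1)) ℂ)) = if j = k then 1 else 0 := by
  by_cases h : j = k
  · rw [if_pos h, h, MvPowerSeries.pderiv_X_self, map_one]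
  · rw [if_neg h, MvPowerSeries.pderiv_X_of_ne (Ne.symm h), map_zero]

lemma pd_C (j : Fin (n + 1)) (c : ℂ) : MvPowerSeries.pderiv ℂ j
      (MvPowerSeries.C c : MvPowerSeries (Fin (n + 1)) ℂ) = 0 :=
  Derivation.map_algebraMap _ c

lemma entry (w : Fin (n + 1) → ℕ) (hw : ∀ i, 1 ≤ w i) (i : Fin (n + 1)) (p : Fin (n + 1) → ℂ)
    (lam : ℂ) (k j : Fin (n + 1)) :
    MvPowerSeries.coeff (Finsupp.single j 1) (ph w i p lam k) =
      lam ^ w k * ((if k = i then 0 else if j = k then 1 else 0) +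
        (w k : ℂ) * p k * (if j = i then 1 else 0)) := by
  have h1 : lam ^ w k = lam ^ (w k - 1) * lam := by
    rw [← pow_succ, Nat.sub_add_cancel (hw k)]
  have hu : MvPowerSeries.constantCoeff (MvPowerSeries.pderiv ℂ j (uu i lam)) =
      lam * (if j = i then 1 else 0) := by
    unfold uu
    rw [Derivation.leibniz, pd_C, smul_zero, add_zero, smul_eq_mul, map_mul,
      MvPowerSeries.constantCoeff_C, map_add, Derivation.map_one_eq_zero, zero_add, pd_X]
  have hy : MvPowerSeries.constantCoeff (MvPowerSeries.pderiv ℂ j (yy i p k)) =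
      if k = i then 0 else if j = k then 1 else 0 := by
    unfold yy
    rw [map_add, pd_C, add_zero]
    split_ifs with h2 h3
    · rw [map_zero, map_zero]
    · rw [pd_X, if_pos h3]
    · rw [pd_X, if_neg h3]
  rw [coeff_one]
  unfold ph
  rw [map_sub, pd_C, sub_zero, Derivation.leibniz, Derivation.leibniz_pow, smul_eq_mul, smul_eq_mul,
    smul_eq_mul, map_add, map_mul, map_mul, hy, nsmul_eq_mul, map_mul, map_mul, hu, map_natCast,
    map_pow, map_pow, cc_uu, cc_yy]
  rw [h1]
  ring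

lemma coord (w : Fin (n + 1) → ℕ) (hw : ∀ i, 1 ≤ w i) (i : Fin (n + 1)) (p : Fin (n + 1) → ℂ)
    (hp : p i ≠ 0) (lam : ℂ) (hl : lam ≠ 0) : IsCoord (ph w i p lam) := by
  unfold IsCoord
  intro h0
  obtain ⟨v, hv, hMv⟩ := Matrix.exists_mulVec_eq_zero_iff.2 h0
  have hk : ∀ k, lam ^ w k * ((if k = i then 0 else v k) + (w k : ℂ) * p k * v i) = 0 := by
    intro k
    have h1 := congrFun hMv k
    rw [Matrix.mulVec, dotProduct] at h1
    simp only [Matrix.of_apply, entry w hw, Pi.zero_apply] at h1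
    refine Eq.trans ?_ h1
    by_cases hki : k = i
    · subst hki
      simp only [if_true, zero_add, mul_ite, mul_one, mul_zero, ite_mul, zero_mul,
        Finset.sum_ite_eq', Finset.mem_univ]
      ring
    · simp only [if_neg hki, mul_add, add_mul, mul_ite, mul_one, mul_zero, ite_mul, zero_mul,
        Finset.sum_add_distrib, Finset.sum_ite_eq', Finset.mem_univ, if_true]
      ring
  have hi : v i = 0 := by
    have h1 := hk i
    rw [if_pos rfl, zero_add] at h1
    have hw' : (w i : ℂ) ≠ 0 := by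
      have := hw i
      exact_mod_cast (by omega : w i ≠ 0)
    have h2 := (mul_eq_zero.1 h1).resolve_left (pow_ne_zero _ hl)
    exact (mul_eq_zero.1 h2).resolve_left (mul_ne_zero hw' hp)
  apply hv
  funext k
  by_cases hki : k = i
  · rw [hki, hi]; rfl
  · have h1 := hk k
    rw [if_neg hki, hi, mul_zero, add_zero] at h1
    exact (mul_eq_zero.1 h1).resolve_left (pow_ne_zero _ hl)

end orbW

theorem t_ORB : S_ORB := by
  intro n r w hw d f hf i p hp lam hl
  refine ⟨orbW.ph w i p lam, orbW.coord w hw i p hp lam hl, orbW.cc_ph w i p lam, ?_⟩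
  have hu : IsUnit (orbW.uu i lam ^ d) := by
    refine IsUnit.pow d ?_
    rw [MvPowerSeries.isUnit_iff_constantCoeff, orbW.cc_uu]
    exact isUnit_iff_ne_zero.2 hl
  obtain ⟨v, hv⟩ := hu.exists_left_inv
  have h1 : ∀ j, ((rename i.succAbove (slice i p (f j)) :
          MvPolynomial (Fin (n + 1)) ℂ) : MvPowerSeries (Fin (n + 1)) ℂ) = aeval (orbW.yy i p) (f j) :=
    fun j => orbW.coe_slice i p (f j)
  have h2 := fun j => orbW.coe_tr w i p lam d (f j) (hf j)
  simp only [h1, h2]
  refine le_antisymm (Ideal.span_le.2 ?_) (Ideal.span_le.2 ?_)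
  · rintro _ ⟨j, rfl⟩
    have h3 : aeval (orbW.yy i p) (f j) =
        v * (orbW.uu i lam ^ d * aeval (orbW.yy i p) (f j)) := by
      rw [← mul_assoc, hv, one_mul]
    show aeval (orbW.yy i p) (f j) ∈ _
    rw [h3]
    exact Ideal.mul_mem_left _ _ (Ideal.subset_span ⟨j, rfl⟩)
  · rintro _ ⟨j, rfl⟩
    exact Ideal.mul_mem_left _ _ (Ideal.subset_span ⟨j, rfl⟩)

end Pool.Agent.NH52.WC
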