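import Pool.Agent.NH52.WC.Stm

set_option autoImplicit false
set_option linter.unusedSectionVars false
set_option linter.unusedVariables false

/-! # WC-3 (helper79): the series of an ideal without base points -/

namespace Pool.Agent.NH52.WC

open MvPolynomial Pool.Agent.W574.MO Pool.Agent.W574.RO

namespace Ser

variable {M : Type} [CommRing M] {L : Mˣ}

/-- the volume of all arcs with the origin `0` is `1` -/
theorem wvol_zero {n : ℕ} (w : Fin n → ℕ) (d : ℕ) (hd : 0 < d) : wvol L w d 0 = 1 := by
  have h : (∑ i, ((0 * w i + d - 1) / d - 1)) = 0 := by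
    refine Finset.sum_eq_zero fun i _ => ?_
    have h1 : (0 * w i + d - 1) / d = 0 := Nat.div_eq_of_lt (by omega)
    rw [h1, Nat.zero_sub]
  rw [wvol, h, pow_zero, Units.val_one]

/-- the periodicity of the volumes -/
theorem wvol_add {n : ℕ} (w : Fin n → ℕ) (hw : ∀ i, 1 ≤ w i) (d : ℕ) (hd : 0 < d)
    (e : ℕ) (he : 1 ≤ e) :
    wvol L w d (e + d) = ((L⁻¹ ^ (∑ i, w i) : Mˣ) : M) * wvol L w d e := by
  have h : (∑ i, (((e + d) * w i + d - 1) / d - 1)) =
      (∑ i, w i) + ∑ i, ((e * w i + d - 1) / d - 1) := by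
    rw [← Finset.sum_add_distrib]
    refine Finset.sum_congr rfl fun i _ => ?_
    have h1 : (e + d) * w i + d - 1 = (e * w i + d - 1) + d * w i := by
      have h2 : (e + d) * w i = e * w i + d * w i := by ring
      rw [h2]
      omega
    rw [h1, Nat.add_mul_div_left _ _ hd]
    have h2 : 1 ≤ (e * w i + d - 1) / d := by
      rw [Nat.le_div_iff_mul_le hd]
      have h3 : 1 ≤ e * w i := Nat.mul_pos he (hw i)
      omega
    omega
  rw [wvol, wvol, h, pow_add, Units.val_mul]

/-- the volumes of `ord I ≥ e` -/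
theorem tail_wser {n : ℕ} (w : Fin n → ℕ) (d : ℕ) (hd : 0 < d) :
    tail 1 (wser L w d) = PowerSeries.mk fun e => wvol L w d e := by
  ext e
  rw [coeff_tail, PowerSeries.coeff_mk]
  have h : ∀ e, (∑ k ∈ Finset.range e, PowerSeries.coeff k (wser L w d)) =
      1 - wvol L w d e := by
    intro e
    induction e with
    | zero => rw [Finset.range_zero, Finset.sum_empty, wvol_zero w d hd, sub_self]
    | succ e ih =>
      rw [Finset.sum_range_succ, ih, wser, PowerSeries.coeff_mk]
      ring
  rw [h]
  ring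

theorem tail_mem {n : ℕ} (w : Fin n → ℕ) (hw : ∀ i, 1 ≤ w i) (d : ℕ) (hd : 0 < d)
    (hs : 1 ≤ ∑ i, w i) (K : ℕ → ℕ → Prop) (hK : K d (∑ i, w i)) :
    tail 1 (wser L w d) ∈ DenRing L K := by
  classical
  rw [tail_wser w d hd]
  set q : M := ((L⁻¹ ^ (∑ i, w i) : Mˣ) : M) with hq
  set V : PowerSeries M := PowerSeries.mk fun e => wvol L w d e with hV
  set P : PowerSeries M := ∑ e ∈ Finset.range d,
    PowerSeries.C (wvol L w d (e + 1)) * PowerSeries.X ^ (e + 1) with hP
  have key : (V - 1) * (1 - PowerSeries.C q * PowerSeries.X ^ d) = P := by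
    ext e
    have hc : PowerSeries.coeff e P = if 1 ≤ e ∧ e ≤ d then wvol L w d e else 0 := by
      rw [hP, map_sum]
      have h1 : ∀ k ∈ Finset.range d, PowerSeries.coeff e
          (PowerSeries.C (wvol L w d (k + 1)) * PowerSeries.X ^ (k + 1)) =
          if k + 1 = e then wvol L w d e else 0 := by
        intro k _
        rw [PowerSeries.coeff_C_mul, PowerSeries.coeff_X_pow]
        by_cases h : e = k + 1
        · rw [if_pos h, if_pos h.symm, mul_one, h]
        · rw [if_neg h, if_neg (fun h' => h h'.symm), mul_zero]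
      rw [Finset.sum_congr rfl h1]
      by_cases h : 1 ≤ e ∧ e ≤ d
      · rw [if_pos h, Finset.sum_eq_single (e - 1)]
        · rw [if_pos (by omega)]
        · intro k _ hk
          rw [if_neg (by omega)]
        · intro hk
          exact absurd (Finset.mem_range.2 (by omega)) hk
      · rw [if_neg h]
        refine Finset.sum_eq_zero fun k hk => ?_
        rw [Finset.mem_range] at hk
        rw [if_neg (by omega)]
    have hv1 : ∀ e, PowerSeries.coeff e (V - 1) = if e = 0 then 0 else wvol L w d e := by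
      intro e
      rw [map_sub, hV, PowerSeries.coeff_mk, PowerSeries.coeff_one]
      by_cases h : e = 0
      · rw [if_pos h, if_pos h, h, wvol_zero w d hd, sub_self]
      · rw [if_neg h, if_neg h, sub_zero]
    rw [hc, mul_sub, mul_one, map_sub, hv1, ← mul_assoc, mul_comm (V - 1) (PowerSeries.C q),
      mul_assoc, PowerSeries.coeff_C_mul, PowerSeries.coeff_mul_X_pow']
    by_cases h0 : e = 0
    · subst h0
      rw [if_pos rfl, if_neg (show ¬ d ≤ 0 by omega), if_neg (show ¬ (1 ≤ 0 ∧ 0 ≤ d) by omega)]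
      ring
    · rw [if_neg h0]
      by_cases h1 : e ≤ d
      · rw [if_pos (show 1 ≤ e ∧ e ≤ d from ⟨by omega, h1⟩)]
        by_cases h2 : d ≤ e
        · have h3 : e - d = 0 := by omega
          rw [if_pos h2, hv1, if_pos h3]
          ring
        · rw [if_neg h2]
          ring
      · have h3 : e - d ≠ 0 := by omega
        rw [if_pos (show d ≤ e by omega), hv1, if_neg h3,
          if_neg (show ¬ (1 ≤ e ∧ e ≤ d) by omega)]
        have h4 := wvol_add (L := L) w hw d hd (e - d) (by omega)
        have h5 : e - d + d = e := by omega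
        rw [h5] at h4
        rw [h4]
        ring
  have hgeo : (1 - PowerSeries.C q * PowerSeries.X ^ d) * geo L d (∑ i, w i) = 1 :=
    geo_mul L hd _
  have hVe : V = 1 + P * geo L d (∑ i, w i) := by
    rw [← key, mul_assoc, hgeo]
    ring
  rw [hVe]
  refine (DenRing L K).add_mem (DenRing L K).one_mem ((DenRing L K).mul_mem ?_
    (geo_mem hd hs hK))
  exact Subring.sum_mem _ fun e _ => (DenRing L K).mul_mem (C_mem _)
    ((DenRing L K).pow_mem X_mem _)

end Ser

/-- WC-3 -/
theorem t_SER : S_SER := by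
  intro M _ L n w hw d hd K hK
  have hs : 1 ≤ ∑ i, w i :=
    (hw 0).trans (Finset.single_le_sum (f := w) (fun _ _ => Nat.zero_le _) (Finset.mem_univ 0))
  exact mem_of_tail (Ser.tail_mem w hw d hd hs K hK)

end Pool.Agent.NH52.WC
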