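import Pool.Agent.NH52.WC.Stm
import Pool.Agent.Y229.SP3

set_option autoImplicit false

/-! # WC-1: adding a variable -/

namespace Pool.Agent.NH52.WC

open MvPolynomial Pool.Agent.W574.MO Pool.Agent.W574.SM Pool.Agent.W574.LM Pool.Agent.W574.HS
  Pool.Agent.W574.RO Pool.Agent.W574.CN Pool.Agent.Y229 Pool.Agent.NH52.CI

namespace Sli

theorem bij {n : ℕ} (i : Fin (n + 1)) :
    Function.Bijective (Sum.elim i.succAbove (fun _ : Fin 1 => i) : Fin n ⊕ Fin 1 → Fin (n + 1)) := by
  constructor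
  · rintro (a | a) (b | b) h
    · exact congrArg Sum.inl (Fin.succAbove_right_injective h)
    · exact absurd h (Fin.succAbove_ne i a)
    · exact absurd h.symm (Fin.succAbove_ne i b)
    · exact congrArg Sum.inr (Subsingleton.elim a b)
  · intro x
    by_cases hx : x = i
    · exact ⟨Sum.inr 0, hx.symm⟩
    · obtain ⟨y, hy⟩ := Fin.exists_succAbove_eq hx
      exact ⟨Sum.inl y, hy⟩

end Sli

theorem t_SLI : S_SLI := by
  classical
  intro n r i g α h
  have h1 := sf_mul g (fun _ : Fin 1 => (1 : MvPolynomial (Fin 1) ℂ)) 0 0 α h ⟨0, one_ne_zero⟩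
  refine sf_equiv (Equiv.ofBijective _ (Sli.bij i)) (Equiv.prodUnique (Fin r) (Fin 1))
    (mulf g fun _ : Fin 1 => (1 : MvPolynomial (Fin 1) ℂ))
    (fun j => rename i.succAbove (g j)) (fun j => ?_) 0 α ?_
  · rw [mulf, map_one, mul_one, rename_rename]
    rfl
  · have e : ((0 : Fin (n + 1) → ℂ) ∘ (Equiv.ofBijective _ (Sli.bij i))) =
        Sum.elim (0 : Fin n → ℂ) (0 : Fin 1 → ℂ) := by
      funext x
      rcases x with x | x <;> rfl
    rw [e]
    exact h1

end Pool.Agent.NH52.WC
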