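import Pool.Agent.NH52.CI.Cls
import Pool.Agent.Y229.SP5

set_option autoImplicit false

/-! # Weighted cones: definitions and the statements of the parts -/

namespace Pool.Agent.NH52.WC

open MvPolynomial Pool.Agent.W574.MO Pool.Agent.W574.SM Pool.Agent.W574.LM Pool.Agent.W574.HS
  Pool.Agent.W574.RO Pool.Agent.W574.CN Pool.Agent.Y229 Pool.Agent.NH52.CI

/-- The slice `x_i = p_i` near the point `p`, with the coordinates `y_k = x_k - p_k`, `k ≠ i`: the
polynomial `f` is mapped to the polynomial `f(p_i, p_k + y_k)`. -/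
noncomputable def slice {n : ℕ} (i : Fin (n + 1)) (p : Fin (n + 1) → ℂ) :
    MvPolynomial (Fin (n + 1)) ℂ →ₐ[ℂ] MvPolynomial (Fin n) ℂ :=
  aeval (i.insertNth (C (p i)) fun k => X k + C (p (i.succAbove k)))

/-- Let `f_j` be weighted homogeneous of degree `d`, for the weights `w_i ≥ 1`, without common zero
outside the origin. The order of the ideal `(f_j)` along an arc `x(t)`, `x(0) = 0`, is
`d min_i (ord x_i) / w_i`. So the set of the arcs along which the order is at least `e` is given by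
`ord x_i ≥ max (1, ⌈e w_i / d⌉)`, and its volume is the following power of `L`, if the arcs with the
origin `0` have the volume `1`. -/
def wvol {M : Type} [CommRing M] (L : Mˣ) {n : ℕ} (w : Fin n → ℕ) (d e : ℕ) : M :=
  ((L⁻¹ ^ (∑ i, ((e * w i + d - 1) / d - 1)) : Mˣ) : M)

/-- `∑_e μ(ord I = e) T^e` for such an ideal -/
noncomputable def wser {M : Type} [CommRing M] (L : Mˣ) {n : ℕ} (w : Fin n → ℕ) (d : ℕ) :
    PowerSeries M :=
  PowerSeries.mk fun e => wvol L w d e - wvol L w d (e + 1)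

/-- WC-1: a family of polynomials which do not depend on one of the variables -/
def S_SLI : Prop :=
  ∀ {n r : ℕ} (i : Fin (n + 1)) (g : Fin r → MvPolynomial (Fin n) ℂ) (α : ℂ), SF g 0 α →
    SF (fun j => rename i.succAbove (g j)) 0 α

/-- WC-2: the orbits of the action of `ℂ*` -/
def S_ORB : Prop :=
  ∀ {n r : ℕ} (w : Fin (n + 1) → ℕ) (_ : ∀ i, 1 ≤ w i) (d : ℕ)
    (f : Fin r → MvPolynomial (Fin (n + 1)) ℂ) (_ : ∀ j, (f j).IsWeightedHomogeneous w d)
    (i : Fin (n + 1)) (p : Fin (n + 1) → ℂ) (_ : p i ≠ 0) (lam : ℂ) (_ : lam ≠ 0),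
    ∃ φ : Fin (n + 1) → MvPowerSeries (Fin (n + 1)) ℂ, Pool.Agent.Y229.GL.IsCoord φ ∧
      (∀ k, MvPowerSeries.constantCoeff (φ k) = 0) ∧
      Ideal.span (Set.range fun j => ((rename i.succAbove (slice i p (f j)) :
          MvPolynomial (Fin (n + 1)) ℂ) : MvPowerSeries (Fin (n + 1)) ℂ)) =
        Ideal.span (Set.range fun j => MvPowerSeries.subst φ
          ((tr (fun k => lam ^ w k * p k) (f j) : MvPolynomial (Fin (n + 1)) ℂ) :
            MvPowerSeries (Fin (n + 1)) ℂ))

/-- WC-3: the denominators of the series of an ideal without base points -/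
def S_SER : Prop :=
  ∀ {M : Type} [CommRing M] (L : Mˣ) {n : ℕ} (w : Fin (n + 1) → ℕ) (_ : ∀ i, 1 ≤ w i) (d : ℕ)
    (_ : 0 < d) (K : ℕ → ℕ → Prop) (_ : K d (∑ i, w i)), wser L w d ∈ DenRing L K

end Pool.Agent.NH52.WC
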